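import Pool.Agent.H80.Spog2

open Pool.Agent.H80.ST Pool.Agent.H80.Spog

theorem Pool.Agent.Results.MP_eea557_ag.Criterion.result (K : Type) [Field K] (l n : ℕ)
    (a : Fin n → Fin l → K) (ha : ∀ h, a h ≠ 0) (hi : Function.Injective fun h => hyp (a h))
    (θ : Fin (l + 1) → Fin l → S K l) (hθ : ∀ i, θ i ∈ D a)
    (hd : ∀ i, ∃ d, ∀ j, (θ i j).IsHomogeneous d) (g : Fin (l + 1) → S K l)
    (hg : ∀ i : Fin (l + 1),
      (-1) ^ (i.val + 1) * ((Matrix.of θ).submatrix i.succAbove id).det =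
        g i * ∏ h, lin (a h)) :
    CondI a θ g ↔ CondII g :=
  main ha hi hθ hd hg
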